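import Pool.Agent.U36.TS.Stm2

set_option autoImplicit false

/-!
# Project TSH, package FIN2 (helper187)
-/

namespace Pool.Agent.U36.TS

open Pool.Agent.TH954

namespace FIN2p

/-- an integer approximation -/
theorem approx {l : ℕ} [Fact l.Prime] (a : ℤ_[l]) (n : ℕ) :
    ∃ j : ℤ, (l : ℤ_[l]) ^ n ∣ (j : ℤ_[l]) - a := by
  refine ⟨(PadicInt.appr a n : ℕ), ?_⟩
  have h := PadicInt.appr_spec n a
  rw [Ideal.mem_span_singleton] at h
  have h2 := (dvd_neg (α := ℤ_[l])).2 h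
  rw [neg_sub] at h2
  exact_mod_cast h2

theorem core (hN2 : S_N2) {M : Type} [Field M] {l q : ℕ} [Fact l.Prime] {th : ℕ → M}
    {T Ph : M ≃+* M} {U : Set M} (hT : Tame M l q th T Ph U) {z : M} (hz : z ∈ U)
    (hz1 : 1 - z ∈ U) (hTz : T z = z) (hPz : Ph z = z) {a : ℤ_[l]} (ha : a ≠ 0)
    (h : ∀ (m : ℕ) (j : ℤ), (l : ℤ_[l]) ^ m ∣ (j : ℤ_[l]) - a → Ex T th l m z j)
    (h0 : ∀ m, Ex T th l m (1 - z) 0) (k : ℕ) :
    ∃ y : M, y ^ l ^ k = 1 - z ∧ T y = y ∧ Ph y = y := by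
  obtain ⟨r, a0, hau, har⟩ : ∃ (r : ℕ) (a0 : ℤ_[l]), IsUnit a0 ∧ a = a0 * (l : ℤ_[l]) ^ r :=
    ⟨a.valuation, (PadicInt.unitCoeff ha : ℤ_[l]), Units.isUnit _, PadicInt.unitCoeff_spec ha⟩
  have hal : ¬ (l : ℤ_[l]) ∣ a0 := fun hd =>
    (PadicInt.irreducible_p (p := l)).not_isUnit (isUnit_of_dvd_unit hd hau)
  choose α hα using fun i : ℕ => approx a0 (i + 1)
  refine hN2 M l q th T Ph U hT r α z (fun i hd => ?_) hz hz1 hTz hPz (fun i => ?_) h0 k
  · apply hal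
    have h1 : (l : ℤ_[l]) ∣ (α i : ℤ_[l]) := by
      obtain ⟨c, hc⟩ := hd
      exact ⟨(c : ℤ_[l]), by rw [hc]; push_cast; ring⟩
    have h2 : (l : ℤ_[l]) ∣ (α i : ℤ_[l]) - a0 :=
      (dvd_pow_self _ (Nat.succ_ne_zero i)).trans (hα i)
    have h3 := dvd_sub h1 h2
    rwa [sub_sub_cancel] at h3
  · refine h i _ ?_
    have h1 : (l : ℤ_[l]) ^ i ∣ (α i : ℤ_[l]) - a0 := (pow_dvd_pow _ (Nat.le_succ i)).trans (hα i)
    have h2 : (((l : ℤ) ^ r * α i : ℤ) : ℤ_[l]) - a = (l : ℤ_[l]) ^ r * ((α i : ℤ_[l]) - a0) := by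
      rw [har]
      push_cast
      ring
    rw [h2]
    exact h1.mul_left _

theorem th_mem {M : Type} [Field M] {l q : ℕ} {th : ℕ → M} {T Ph : M ≃+* M} {U : Set M}
    (hT : Tame M l q th T Ph U) {z : M} (hz : z ∈ U) : (1 : M) ∈ U ∧ ∀ m, th m ∈ U := by
  have h1 : (1 : M) ∈ U := by
    have := hT.mul z hz z⁻¹ (hT.inv z hz)
    rwa [mul_inv_cancel₀ (hT.ne_zero z hz)] at this
  exact ⟨h1, fun m => hT.of_pow (th m) m (by rw [(hT.prim m).pow_eq_one]; exact h1)⟩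

theorem neg_one_mem {M : Type} [Field M] {l q : ℕ} {th : ℕ → M} {T Ph : M ≃+* M} {U : Set M}
    (hT : Tame M l q th T Ph U) {z : M} (hz : z ∈ U) : (-1 : M) ∈ U := by
  obtain ⟨_, hth⟩ := th_mem hT hz
  have hl : 1 < l ^ 1 := by rw [pow_one]; exact hT.prime.one_lt
  have hne : th 1 ≠ 1 := (hT.prim 1).ne_one hl
  have h0 : th 1 ≠ 0 := hT.ne_zero _ (hth 1)
  have h1 : th 1 - 1 ≠ 0 := sub_ne_zero.2 hne
  have ha := (hT.const 1 1 (by rwa [zpow_one])).1
  have hb := (hT.const 1 (-1) (by rw [zpow_neg_one]; exact fun h => hne (inv_eq_one.1 h))).1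
  rw [zpow_one] at ha
  rw [zpow_neg_one] at hb
  have h2 := hT.mul _ (hT.mul _ hb _ (hth 1)) _ (hT.inv _ ha)
  have h3 : ((th 1)⁻¹ - 1) * th 1 * (th 1 - 1)⁻¹ = -1 := by
    rw [sub_mul, inv_mul_cancel₀ h0, one_mul, ← neg_sub (th 1) 1, neg_mul, mul_inv_cancel₀ h1]
  rwa [h3] at h2

theorem root_fix {M : Type} [Field M] {l q : ℕ} {th : ℕ → M} {T Ph : M ≃+* M} {U : Set M}
    (hT : Tame M l q th T Ph U) (m : ℕ) {y : M} (h : y ^ l ^ m = 1) : T y = y := by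
  have : NeZero (l ^ m) := ⟨pow_ne_zero _ hT.prime.ne_zero⟩
  obtain ⟨i, _, hi⟩ := (hT.prim m).eq_pow_of_pow_eq_one h
  rw [← hi, map_pow, hT.T_fix]

theorem ex_neg_one {M : Type} [Field M] {l q : ℕ} {th : ℕ → M} {T Ph : M ≃+* M} {U : Set M}
    (hT : Tame M l q th T Ph U) (m : ℕ) : Ex T th l m (-1) 0 := by
  intro y hy
  rw [zpow_zero, one_mul]
  rcases hT.prime.eq_two_or_odd' with h2 | hodd
  · apply root_fix hT (m + 1)
    rw [pow_succ, pow_mul, hy, h2]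
    norm_num
  · have h1 : (-y) ^ l ^ m = 1 := by
      rw [(hodd.pow (n := m)).neg_pow, hy, neg_neg]
    have h2 := root_fix hT m h1
    rw [map_neg, neg_inj] at h2
    exact h2

end FIN2p

open FIN2p

/-- FIN2: the shape, with the second part -/
theorem t_FIN2 (hFIN : S_FIN) (hEX : S_EX) (hN2 : S_N2) : S_FIN2 := by
  intro M _ l q _ th T Ph U hT z hz hz1 hTz hPz
  obtain ⟨a, b, hab, hza, hzb⟩ := hFIN M l q th T Ph U hT z hz hz1 hTz hPz
  refine ⟨a, b, hza, hzb, ?_⟩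
  have hT1 : T (1 - z) = 1 - z := by rw [map_sub, map_one, hTz]
  have hP1 : Ph (1 - z) = 1 - z := by rw [map_sub, map_one, hPz]
  by_cases ha : a = 0
  · by_cases hb : b = 0
    · exact Or.inl ⟨ha, hb⟩
    · refine Or.inr (Or.inr (Or.inl ⟨ha, hb, fun k => ?_⟩))
      have h1 := core hN2 hT hz1 (by rw [sub_sub_cancel]; exact hz) hT1 hP1 hb hzb
        (fun m => by
          rw [sub_sub_cancel]
          exact hza m 0 (by rw [ha]; simp)) k
      rwa [sub_sub_cancel] at h1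
  · by_cases hb : b = 0
    · refine Or.inr (Or.inl ⟨ha, hb, fun k => ?_⟩)
      exact core hN2 hT hz hz1 hTz hPz ha hza (fun m => hzb m 0 (by rw [hb]; simp)) k
    · have hab' : a = b := by
        rcases hab with h | h | h
        · exact absurd h ha
        · exact absurd h hb
        · exact h
      refine Or.inr (Or.inr (Or.inr ⟨ha, hab', fun k => ?_⟩))
      have hz0 : z ≠ 0 := hT.ne_zero z hz
      obtain ⟨_, _, _, hmul, hinv, _⟩ := hEX M l q th T Ph U hT T hT.T_fix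
      have hzi : z⁻¹ ∈ U := hT.inv z hz
      have hid : 1 - z⁻¹ = -1 * ((1 - z) * z⁻¹) := by
        rw [sub_mul, mul_inv_cancel₀ hz0]
        ring
      have hm1 := neg_one_mem hT hz
      have hmem : 1 - z⁻¹ ∈ U := by
        rw [hid]
        exact hT.mul _ hm1 _ (hT.mul _ hz1 _ hzi)
      refine core hN2 hT hzi hmem (by rw [map_inv₀, hTz]) (by rw [map_inv₀, hPz]) (neg_ne_zero.2 ha)
        (fun m j hj => ?_) (fun m => ?_) k
      · have h1 : (l : ℤ_[l]) ^ m ∣ ((-j : ℤ) : ℤ_[l]) - a := by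
          have h2 := (dvd_neg (α := ℤ_[l])).2 hj
          have h3 : -((j : ℤ_[l]) - -a) = ((-j : ℤ) : ℤ_[l]) - a := by push_cast; ring
          rwa [h3] at h2
        have h2 := hinv z hz m (-j) (hza m (-j) h1)
        rwa [neg_neg] at h2
      · obtain ⟨j, hj⟩ := approx a m
        have h1 := hza m j hj
        have h2 := hzb m j (by rw [← hab']; exact hj)
        have h3 := hinv z hz m j h1
        have h4 := hmul (1 - z) hz1 z⁻¹ hzi m j (-j) h2 h3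
        rw [add_neg_cancel] at h4
        have h5 := hmul (-1) hm1 _ (hT.mul _ hz1 _ hzi) m 0 0 (ex_neg_one hT m) h4
        rw [hid]
        simpa using h5

end Pool.Agent.U36.TS
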